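import Pool.Agent.H59.KA.Stmts

/-!
# Project KA, module QS0: the simple bound for quadratic polynomials
-/

set_option autoImplicit false

open MeasureTheory Set Filter Topology
open scoped ContDiff

namespace Pool.Agent.H59.KA

open Pool.Agent.H84 hiding cv mn
open Pool.Agent.H84.Sym Pool.Agent.H84.Sym.P2x Pool.Agent.H19.KL
open Pool.Agent.H73.KG Pool.Agent.H20.KH Pool.Agent.H78.KP

variable (E : Type) [NormedAddCommGroup E] [InnerProductSpace ℝ E]
    [FiniteDimensional ℝ E] [MeasurableSpace E] [BorelSpace E]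

theorem qs0_thm (hQWH : QWHStmt E) (hQGR : QGRStmt E) (hIMP : IMPStmt E) (hBAS : BASStmt E) :
    QS0Stmt E := by
  intro t ht ht1
  by_contra hcon
  obtain ⟨ι, _, _, b, ρ, U, B, c, hWC, hSY, hlt⟩ := hQWH t (4 / Real.sqrt t) ht hcon
  obtain ⟨h1, h2, h3, h4, h5, h6, h7⟩ := hBAS
  have hs : 0 < Real.sqrt t := Real.sqrt_pos.2 ht
  have hcov : CovLe U 1 := by
    refine h7 U t hWC.pp ι b 1 ?_
    rw [hWC.cov]
    have : ((1:ℝ) • (1 : Matrix ι ι ℝ) - Matrix.diagonal (fun i => 1 - ρ i)) =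
        Matrix.diagonal ρ := by
      ext i j
      by_cases hij : i = j
      · subst hij
        simp
      · simp [hij]
    rw [this]
    exact Matrix.PosSemidef.diagonal (fun i => (hWC.pos i).le)
  have hG : GPC (mu U) (Real.sqrt (1 / t)) := hIMP U t 1 hWC.pp one_pos hcov
  obtain ⟨g1, g2, g3, g4⟩ := hQGR ι b B c hSY
  have hv := h3 U t hWC.pp (qf b B c) g1 g2.2 g3 _ hG
  rw [g4 U t hWC.pp] at hv
  have hsq : Real.sqrt (1 / t) = 1 / Real.sqrt t := by
    rw [Real.sqrt_div (by norm_num), Real.sqrt_one]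
  rw [hsq] at hv
  have htr : (B * cm b U * B).trace ≤ ∑ i, ∑ j, (B i j) ^ 2 := by
    rw [hWC.cov]
    simp only [Matrix.trace, Matrix.diag]
    refine Finset.sum_le_sum fun i _ => ?_
    rw [Matrix.mul_apply]
    refine Finset.sum_le_sum fun j _ => ?_
    rw [Matrix.mul_diagonal, hSY j i]
    have := (hWC.pos j).le
    nlinarith [mul_nonneg this (sq_nonneg (B i j))]
  have : 1 / Real.sqrt t * (4 * ((B * cm b U * B).trace + ∑ i, (qv b B c U i) ^ 2)) ≤
      4 / Real.sqrt t * N2 B (qv b B c U) := by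
    have he : 4 / Real.sqrt t * N2 B (qv b B c U) = 1 / Real.sqrt t *
        (4 * ((∑ i, ∑ j, (B i j) ^ 2) + ∑ i, (qv b B c U i) ^ 2)) := by
      unfold N2
      ring
    rw [he]
    have h0 : (0:ℝ) ≤ 1 / Real.sqrt t := by positivity
    exact mul_le_mul_of_nonneg_left (by linarith) h0
  linarith

end Pool.Agent.H59.KA
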